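import Pool.Agent.W203.SP.Stm

/-! Project SP, step FUB: interchange of the integrals. -/

set_option autoImplicit false

namespace Pool.Agent.W935.SP

open MeasureTheory Set Complex Filter
open scoped ENNReal NNReal FourierTransform RealInnerProductSpace ContDiff
open Pool.Agent.H153R4 (E BS ch ST cube kk dd)
open Pool.Agent.W203.SP

lemma ee_norm (x : ℝ) : ‖ee x‖ = 1 := by
  unfold ee
  exact norm_exp_ofReal_mul_I _

lemma ee_add (x y : ℝ) : ee (x + y) = ee x * ee y := by
  unfold ee
  rw [← Complex.exp_add]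
  congr 1
  push_cast
  ring

lemma ee_cont : Continuous ee := by
  unfold ee
  fun_prop

lemma cr_meas : Measurable cr := by
  unfold cr
  exact Measurable.pow_const (by fun_prop) _

lemma cr_bd (r : ℝ) (hr : 1 ≤ |r|) : ‖cr r‖ ≤ 1 := by
  unfold cr
  have h : (1 / 2 : ℂ) = ((1 / 2 : ℝ) : ℂ) := by push_cast; rfl
  rw [h, Complex.norm_cpow_real]
  have h2 : ‖(1 / (2 * I * r) : ℂ)‖ ≤ 1 := by
    rw [norm_div, norm_mul, norm_mul, Complex.norm_I, Complex.norm_real, Real.norm_eq_abs,
      norm_one, Complex.norm_ofNat, div_le_one (by positivity)]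
    linarith
  exact Real.rpow_le_one (norm_nonneg _) h2 (by norm_num)

lemma RT_meas (T e : ℝ) : MeasurableSet (RT T e) := by
  unfold RT
  exact ((isClosed_le continuous_const continuous_abs).inter
    (isClosed_le continuous_abs continuous_const)).measurableSet

lemma RT_vol (T e : ℝ) : volume (RT T e) < ⊤ := by
  refine (measure_mono (t := Icc (-(T ^ (1 + e))) (T ^ (1 + e))) ?_).trans_lt ?_
  · intro r hr
    exact abs_le.1 hr.2
  · rw [Real.volume_Icc]
    exact ENNReal.ofReal_lt_top

lemma cr_int (T e : ℝ) (hT : 1 ≤ T) (he : e < 1) : IntegrableOn cr (RT T e) := by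
  refine Measure.integrableOn_of_bounded (M := 1) (RT_vol T e).ne cr_meas.aestronglyMeasurable ?_
  refine (ae_restrict_iff' (RT_meas T e)).2 (ae_of_all _ fun r hr => ?_)
  exact cr_bd r ((Real.one_le_rpow hT (by linarith)).trans hr.1)

lemma pw_meas {k : ℕ} (w : ℝ) (u : Fin k → ℝ) : Measurable (pw w u : E k → ℝ) := by
  unfold pw
  fun_prop

lemma norm_aux (a b c d : ℂ) (hd : ‖d‖ = 1) : ‖a * (b * (c * d))‖ ≤ ‖a * (b * c)‖ := by
  rw [norm_mul, norm_mul, norm_mul, norm_mul, norm_mul, hd, mul_one]

theorem t_FUB : S_FUB := by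
  intro k M T e t w B u f η G Er hf hT he he1 hη hGc hGi hErm hErB hsub x
  -- the modulated function
  let φ : E k → ℂ := fun z => ((Real.fourierChar (-⟪z, x⟫) : Circle) : ℂ) * f z
  have hφm : Measurable φ := by
    have hc : Measurable fun z : E k => ((Real.fourierChar (-⟪z, x⟫) : Circle) : ℂ) :=
      (continuous_subtype_val.comp Real.continuous_fourierChar).measurable.comp (by fun_prop)
    exact hc.mul hf.meas
  have hφn : ∀ z, ‖φ z‖ = ‖f z‖ := by
    intro z
    simp only [φ]
    rw [norm_mul, Circle.norm_coe, one_mul]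
  have hφ : Integrable φ :=
    hf.int.mono hφm.aestronglyMeasurable (ae_of_all _ fun z => (hφn z).le)
  have hG : Integrable G (volume.restrict (Icc (-(T / 4)) (T / 4))) := hGi.restrict
  have hc : Integrable cr (volume.restrict (RT T e)) := cr_int T e hT he1
  -- the phase
  let K : E k → ℝ × ℝ → ℂ := fun z q =>
    G q.1 * (cr q.2 * ee ((t + q.1) ^ 2 / (4 * q.2) + q.2 * pw w u z))
  have hK : ∀ z, Integrable (K z) ((volume.restrict (Icc (-(T / 4)) (T / 4))).prod
      (volume.restrict (RT T e))) := by
    intro z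
    refine (hG.mul_prod hc).mono ?_ (ae_of_all _ fun q => ?_)
    · apply Measurable.aestronglyMeasurable
      refine (hGc.measurable.comp measurable_fst).mul ((cr_meas.comp measurable_snd).mul ?_)
      exact ee_cont.measurable.comp (by fun_prop)
    · simp only [K]
      rw [norm_mul, norm_mul, norm_mul, ee_norm, mul_one]
  let H : E k × (ℝ × ℝ) → ℂ := fun q => φ q.1 * K q.1 q.2
  have hH : Integrable H (volume.prod ((volume.restrict (Icc (-(T / 4)) (T / 4))).prod
      (volume.restrict (RT T e)))) := by
    refine (hφ.mul_prod (hG.mul_prod hc)).mono ?_ (ae_of_all _ fun q => ?_)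
    · apply Measurable.aestronglyMeasurable
      refine (hφm.comp measurable_fst).mul ((hGc.measurable.comp (measurable_fst.comp
        measurable_snd)).mul ((cr_meas.comp (measurable_snd.comp measurable_snd)).mul ?_))
      refine ee_cont.measurable.comp ?_
      have h1 : Measurable fun q : E k × (ℝ × ℝ) => pw w u q.1 := (pw_meas w u).comp measurable_fst
      fun_prop
    · exact norm_aux _ _ _ _ (ee_norm _)
  -- the two parts
  have hA : ∀ z, φ z * (∫ ζ in Icc (-(T / 4)) (T / 4), G ζ *
      ∫ r in RT T e, cr r * ee ((t + ζ) ^ 2 / (4 * r) + r * pw w u z)) =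
      ∫ q, H (z, q) ∂((volume.restrict (Icc (-(T / 4)) (T / 4))).prod
        (volume.restrict (RT T e))) := by
    intro z
    simp only [H]
    rw [integral_const_mul, integral_prod _ (hK z)]
    simp only [K]
    simp_rw [integral_const_mul]
  have hB : Integrable fun z => φ z * Er (pw w u z) := by
    refine (hφ.norm.mul_const B).mono' ?_ (ae_of_all _ fun z => ?_)
    · exact (hφm.mul (hErm.comp (pw_meas w u))).aestronglyMeasurable
    · rw [norm_mul]
      exact mul_le_mul_of_nonneg_left (hErB _) (norm_nonneg _)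
  have hF : 𝓕 (ge η t w u f) x = ∫ z, (∫ q, H (z, q) ∂((volume.restrict
      (Icc (-(T / 4)) (T / 4))).prod (volume.restrict (RT T e))) + φ z * Er (pw w u z)) := by
    rw [Real.fourier_eq]
    refine integral_congr_ae (ae_of_all _ fun z => ?_)
    simp only
    rw [← hA z, ← mul_add, ← hsub (pw w u z), Circle.smul_def]
    simp only [ge, φ, smul_eq_mul]
    ring
  have hE : 𝓕 (fun z => Er (pw w u z) * f z) x = ∫ z, φ z * Er (pw w u z) := by
    rw [Real.fourier_eq]
    refine integral_congr_ae (ae_of_all _ fun z => ?_)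
    simp only
    rw [Circle.smul_def]
    simp only [φ, smul_eq_mul]
    ring
  rw [hF, integral_add hH.integral_prod_left hB, hE]
  congr 1
  rw [integral_integral_swap (f := fun z q => H (z, q)) hH,
    integral_prod _ hH.integral_prod_right]
  refine integral_congr_ae (ae_of_all _ fun ζ => ?_)
  simp only
  unfold U0
  rw [← integral_const_mul]
  refine integral_congr_ae (ae_of_all _ fun r => ?_)
  simp only
  rw [Real.fourier_eq, ← integral_const_mul, ← integral_const_mul]
  refine integral_congr_ae (ae_of_all _ fun z => ?_)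
  simp only [H, K, φ, ch]
  rw [Circle.smul_def, smul_eq_mul]
  have h1 : ee ((t + ζ) ^ 2 / (4 * r) + r * pw w u z) =
      ee ((t + ζ) ^ 2 / 4 / r + r * w) *
        cexp (((-(2 * Real.pi * ∑ j, r * u j * z j ^ 2) : ℝ) : ℂ) * I) := by
    have h2 : cexp (((-(2 * Real.pi * ∑ j, r * u j * z j ^ 2) : ℝ) : ℂ) * I) =
        ee (-(∑ j, r * u j * z j ^ 2)) := by
      unfold ee
      congr 2
      push_cast
      ring
    rw [h2, ← ee_add]
    congr 1
    unfold pw
    rw [div_div, mul_sub, Finset.mul_sum]
    have h3 : ∑ j, r * (u j * z j ^ 2) = ∑ j, r * u j * z j ^ 2 :=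
      Finset.sum_congr rfl fun j _ => by ring
    rw [h3]
    ring
  rw [h1]
  ring

end Pool.Agent.W935.SP
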